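import Mathlib
import Pool.Agent.W223.HZ.Stms

/-!
# PPR: choice of a prime
-/

set_option autoImplicit false

namespace Pool.Agent.W351.HZ

open Pool.Agent.W223.HZ

/-- a nonzero integer of size at most `exp Λ` has at most `Λ` prime divisors beyond `100` -/
lemma card_dvd_le (P : Finset ℕ) (hP : ∀ p ∈ P, p.Prime ∧ 100 < p) (z : ℤ) (hz : z ≠ 0) (Λ : ℝ)
    (h : |(z : ℝ)| ≤ Real.exp Λ) : ((P.filter fun p : ℕ => (p : ℤ) ∣ z).card : ℝ) ≤ Λ := by
  classical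
  set Q := P.filter fun p : ℕ => (p : ℤ) ∣ z with hQ
  have h1 : (∏ p ∈ Q, p) ∣ z.natAbs := by
    apply Finset.prod_primes_dvd
    · intro p hp
      exact (hP p (Finset.mem_filter.1 hp).1).1.prime
    · intro p hp
      exact Int.natCast_dvd.1 (Finset.mem_filter.1 hp).2
  have h2 : (∏ p ∈ Q, p) ≤ z.natAbs := Nat.le_of_dvd (Int.natAbs_pos.2 hz) h1
  have h3 : ((∏ p ∈ Q, p : ℕ) : ℝ) ≤ |(z : ℝ)| := by
    have : ((z.natAbs : ℕ) : ℝ) = |(z : ℝ)| := by
      rw [Nat.cast_natAbs, Int.cast_abs]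
    rw [← this]; exact_mod_cast h2
  have h4 : Real.exp (Q.card : ℝ) ≤ ((∏ p ∈ Q, p : ℕ) : ℝ) := by
    rw [Nat.cast_prod]
    have : Real.exp (Q.card : ℝ) = ∏ _p ∈ Q, Real.exp 1 := by
      rw [Finset.prod_const, ← Real.exp_nat_mul, mul_one]
    rw [this]
    apply Finset.prod_le_prod
    · intro p _; exact (Real.exp_pos _).le
    · intro p hp
      have h5 : (100 : ℝ) < (p : ℝ) := by exact_mod_cast (hP p (Finset.mem_filter.1 hp).1).2
      have := Real.exp_one_lt_d9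
      linarith
  have h5 := le_trans h4 (le_trans h3 h)
  exact Real.exp_le_exp.1 h5

/-- PPR -/
theorem t (hP : StmtPRM) : StmtPPR := by
  classical
  intro L Λ hL hΛ T g hg0 hgb
  set s : ℝ := √L with hs
  have hs1 : 1 ≤ s := by rw [hs]; exact Real.one_le_sqrt.2 hL
  set N : ℕ := ⌈16 * s + 2 * Λ⌉₊ + 100 with hN
  have hNlb : 16 * s + 2 * Λ + 100 ≤ (N : ℝ) := by
    rw [hN]; push_cast
    have := Nat.le_ceil (16 * s + 2 * Λ)
    linarith
  have hNub : (N : ℝ) ≤ 16 * s + 2 * Λ + 101 := by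
    rw [hN]; push_cast
    have := (Nat.ceil_lt_add_one (by positivity : 0 ≤ 16 * s + 2 * Λ)).le
    linarith
  have hsΛ1 : s ≤ s * Λ := by nlinarith
  have hsΛ2 : Λ ≤ s * Λ := by nlinarith
  have hsΛ3 : 1 ≤ s * Λ := by nlinarith
  have hNub2 : (N : ℝ) ≤ 120 * s * Λ := by nlinarith
  obtain ⟨P, hPc, hPp⟩ := hP N (by omega)
  have hPc' : (N : ℝ) ≤ (P.card : ℝ) := by exact_mod_cast hPc
  have hP100 : ∀ p ∈ P, p.Prime ∧ 100 < p := fun p hp =>
    ⟨(hPp p hp).1, by have := (hPp p hp).2.1; omega⟩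
  -- the sum
  have hsum : ∑ p ∈ P, ((T.filter fun τ => (p : ℤ) ∣ g τ).card : ℝ) ≤ Λ * (T.card : ℝ) := by
    have h1 : ∑ p ∈ P, (T.filter fun τ => (p : ℤ) ∣ g τ).card
        = ∑ τ ∈ T, (P.filter fun p : ℕ => (p : ℤ) ∣ g τ).card :=
      Finset.sum_card_bipartiteAbove_eq_sum_card_bipartiteBelow (fun (p : ℕ) (τ : ℤ) => (p : ℤ) ∣ g τ)
    have h2 : ∑ p ∈ P, ((T.filter fun τ => (p : ℤ) ∣ g τ).card : ℝ)
        = ∑ τ ∈ T, ((P.filter fun p : ℕ => (p : ℤ) ∣ g τ).card : ℝ) := by exact_mod_cast h1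
    rw [h2]
    calc ∑ τ ∈ T, ((P.filter fun p : ℕ => (p : ℤ) ∣ g τ).card : ℝ) ≤ ∑ _τ ∈ T, Λ :=
          Finset.sum_le_sum fun τ hτ => card_dvd_le P hP100 (g τ) (hg0 τ hτ) Λ (hgb τ hτ)
      _ = Λ * (T.card : ℝ) := by rw [Finset.sum_const, nsmul_eq_mul]; ring
  by_contra hcon
  push Not at hcon
  have hall : ∀ p ∈ P, (T.card : ℝ) < 2 * ((T.filter fun τ => (p : ℤ) ∣ g τ).card : ℝ) := by
    intro p hp
    obtain ⟨hpp, hpN, hple⟩ := hPp p hp
    have hpN' : (N : ℝ) < (p : ℝ) := by exact_mod_cast hpN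
    have hN1 : (1 : ℝ) ≤ (N : ℝ) := by linarith
    have hlog : Real.log (N : ℝ) ≤ Real.log (120 * s * Λ) := Real.log_le_log (by linarith) hNub2
    have hlog0 : 0 ≤ Real.log (N : ℝ) := Real.log_nonneg hN1
    have hb : (p : ℝ) ≤ 1920 * s * Λ * Real.log (120 * s * Λ) := by
      calc (p : ℝ) ≤ 16 * N * Real.log N := hple
        _ ≤ 16 * (120 * s * Λ) * Real.log (120 * s * Λ) := by
            apply mul_le_mul _ hlog hlog0 (by positivity)
            linarith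
        _ = _ := by ring
    have h := hcon p hpp (by have := (hP100 p hp).2; omega) (by linarith) hb
    have hsplit := Finset.card_filter_add_card_filter_not (s := T) (fun τ => (p : ℤ) ∣ g τ)
    have h' : 2 * (T.filter fun τ => ¬ (p : ℤ) ∣ g τ).card < T.card := h
    have : T.card < 2 * (T.filter fun τ => (p : ℤ) ∣ g τ).card := by omega
    exact_mod_cast this
  have hPne : P.Nonempty := by
    rw [← Finset.card_pos]
    omega
  have hlt : ∑ _p ∈ P, (T.card : ℝ) < ∑ p ∈ P, 2 * ((T.filter fun τ => (p : ℤ) ∣ g τ).card : ℝ) :=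
    Finset.sum_lt_sum_of_nonempty hPne hall
  rw [Finset.sum_const, nsmul_eq_mul, ← Finset.mul_sum] at hlt
  have hT0 : (0 : ℝ) ≤ (T.card : ℝ) := Nat.cast_nonneg _
  have h2Λ : 2 * Λ * (T.card : ℝ) ≤ (P.card : ℝ) * (T.card : ℝ) :=
    mul_le_mul_of_nonneg_right (by linarith) hT0
  linarith

end Pool.Agent.W351.HZ
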